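import Mathlib
import Pool.Agent.Helper579.LasryLions

set_option autoImplicit false

namespace Pool.Agent.Results.MP_562679_an.CurseLpBalls

open MeasureTheory
open scoped ENNReal Pointwise

/-- The class of `C^2` functions on `D` bounded by `1`, with Lipschitz constant at most
`d^(-1/2)` and all directional derivatives (unit directions) Lipschitz with constant `1/d`. -/
def tildeC2 (d : ℕ) (D : Set (EuclideanSpace ℝ (Fin d))) :
    Set (EuclideanSpace ℝ (Fin d) → ℝ) :=
  {f | ContDiffOn ℝ 2 f D ∧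
    (∀ y ∈ D, |f y| ≤ 1) ∧
    (∀ y ∈ D, ∀ z ∈ D, |f y - f z| ≤ (Real.sqrt (d : ℝ))⁻¹ * dist y z) ∧
    (∀ θ : EuclideanSpace ℝ (Fin d), ‖θ‖ = 1 → ∀ y ∈ D, ∀ z ∈ D,
      |fderiv ℝ f y θ - fderiv ℝ f z θ| ≤ ((d : ℝ))⁻¹ * dist y z)}

/-- Deterministic adaptive algorithms using `n` function values at points of `D`:
with `n = 0` just an output; with `n + 1` values a first node in `D` and, for every possible
observed value there, an algorithm using `n` further values. -/
def Alg {d : ℕ} (D : Set (EuclideanSpace ℝ (Fin d))) : ℕ → Type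
  | 0 => ℝ
  | n + 1 => D × (ℝ → Alg D n)

/-- The output of an algorithm on an input function. -/
def run {d : ℕ} {D : Set (EuclideanSpace ℝ (Fin d))} (f : EuclideanSpace ℝ (Fin d) → ℝ) :
    (n : ℕ) → Alg D n → ℝ
  | 0, a => a
  | n + 1, a => run f n (a.2 (f (a.1 : EuclideanSpace ℝ (Fin d))))

/-- Worst case error over the class for the integral over `D`. -/
noncomputable def err {d : ℕ} (D : Set (EuclideanSpace ℝ (Fin d))) (n : ℕ) (a : Alg D n) :
    ℝ≥0∞ :=
  ⨆ f ∈ tildeC2 d D, ENNReal.ofReal |(∫ y in D, f y) - run f n a|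

/-- The `n`-th minimal worst case error. -/
noncomputable def minErr {d : ℕ} (D : Set (EuclideanSpace ℝ (Fin d))) (n : ℕ) : ℝ≥0∞ :=
  ⨅ a : Alg D n, err D n a

/-- Information complexity: the least `n` with `minErr D n ≤ ε` (infinite if there is none). -/
noncomputable def complexity {d : ℕ} (D : Set (EuclideanSpace ℝ (Fin d))) (ε : ℝ) : ℝ≥0∞ :=
  ⨅ (n : ℕ) (_ : minErr D n ≤ ENNReal.ofReal ε), (n : ℝ≥0∞)

/-- The curse of dimensionality for the family `D d` of domains. -/
def Curse (D : (d : ℕ) → Set (EuclideanSpace ℝ (Fin d))) : Prop :=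
  ∃ C γ ε₀ : ℝ, 0 < C ∧ 0 < γ ∧ 0 < ε₀ ∧
    ∃ᶠ d : ℕ in Filter.atTop, ∀ ε : ℝ, 0 < ε → ε ≤ ε₀ →
      ENNReal.ofReal (C * (1 + γ) ^ d) ≤ complexity (D d) ε

/-- The open unit ball for `∑ |x_i|^p`. -/
def unitBall (p : ℝ) (d : ℕ) : Set (EuclideanSpace ℝ (Fin d)) :=
  {x | ∑ i, |x i| ^ p < 1}

/-- The scaling factor making the volume one. -/
noncomputable def radius (p : ℝ) (d : ℕ) : ℝ :=
  ((volume : Measure (EuclideanSpace ℝ (Fin d))).real (unitBall p d)) ^ (-(1 / (d : ℝ)))

/-- The volume-normalised open `l_p` ball. -/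
noncomputable def lpBall (p : ℝ) (d : ℕ) : Set (EuclideanSpace ℝ (Fin d)) :=
  radius p d • unitBall p d

lemma isOpen_unitBall {p : ℝ} (hp : 0 < p) (d : ℕ) : IsOpen (unitBall p d) := by
  have : Continuous fun x : EuclideanSpace ℝ (Fin d) => ∑ i, |x i| ^ p := by
    apply continuous_finsetSum
    intro i _
    apply Continuous.rpow_const
    · exact continuous_abs.comp (EuclideanSpace.proj i).continuous
    · intro x; right; exact hp.le
  exact isOpen_lt this continuous_const

lemma unitBall_subset {p : ℝ} (hp : 0 < p) (d : ℕ) :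
    unitBall p d ⊆ Metric.closedBall 0 (Real.sqrt d) := by
  intro x hx
  have hx' : ∑ i, |x i| ^ p < 1 := hx
  rw [mem_closedBall_zero_iff, EuclideanSpace.norm_eq]
  apply Real.sqrt_le_sqrt
  have h1 : ∀ i, |x i| ≤ 1 := by
    intro i
    by_contra hcon
    push Not at hcon
    have h2 : (1 : ℝ) < |x i| ^ p := Real.one_lt_rpow hcon hp
    have h3 : |x i| ^ p ≤ ∑ i, |x i| ^ p :=
      Finset.single_le_sum (f := fun i => |x i| ^ p) (fun j _ => by positivity)
        (Finset.mem_univ i)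
    linarith
  calc ∑ i, ‖x i‖ ^ 2 ≤ ∑ i : Fin d, (1 : ℝ) := by
        apply Finset.sum_le_sum
        intro i _
        rw [Real.norm_eq_abs]
        have := h1 i
        have h0 := abs_nonneg (x i)
        nlinarith
    _ = d := by simp

lemma unitBall_vol_pos {p : ℝ} (hp : 0 < p) (d : ℕ) :
    0 < (volume : Measure (EuclideanSpace ℝ (Fin d))) (unitBall p d) := by
  refine (isOpen_unitBall hp d).measure_pos (volume : Measure (EuclideanSpace ℝ (Fin d))) ?_
  refine ⟨0, ?_⟩
  have : ∑ i : Fin d, |(0 : EuclideanSpace ℝ (Fin d)) i| ^ p = 0 := by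
    apply Finset.sum_eq_zero
    intro i _
    simp [Real.zero_rpow hp.ne']
  show ∑ i : Fin d, |(0 : EuclideanSpace ℝ (Fin d)) i| ^ p < 1
  rw [this]; exact one_pos

lemma unitBall_vol_ne_top {p : ℝ} (hp : 0 < p) (d : ℕ) :
    (volume : Measure (EuclideanSpace ℝ (Fin d))) (unitBall p d) ≠ ⊤ :=
  ne_of_lt (lt_of_le_of_lt (measure_mono (unitBall_subset hp d)) measure_closedBall_lt_top)

lemma radius_pos {p : ℝ} (hp : 0 < p) (d : ℕ) : 0 < radius p d := by
  have : 0 < (volume : Measure (EuclideanSpace ℝ (Fin d))).real (unitBall p d) :=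
    ENNReal.toReal_pos (unitBall_vol_pos hp d).ne' (unitBall_vol_ne_top hp d)
  unfold radius
  positivity

lemma isOpen_lpBall {p : ℝ} (hp : 0 < p) (d : ℕ) : IsOpen (lpBall p d) :=
  (isOpen_unitBall hp d).smul₀ (radius_pos hp d).ne'

lemma volume_lpBall {p : ℝ} (hp : 0 < p) {d : ℕ} (hd : 1 ≤ d) :
    (volume : Measure (EuclideanSpace ℝ (Fin d))) (lpBall p d) = 1 := by
  unfold lpBall
  rw [Measure.addHaar_smul, finrank_euclideanSpace_fin]
  have hpos : 0 < (volume : Measure (EuclideanSpace ℝ (Fin d))).real (unitBall p d) :=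
    ENNReal.toReal_pos (unitBall_vol_pos hp d).ne' (unitBall_vol_ne_top hp d)
  have h1 : radius p d ^ d
      = ((volume : Measure (EuclideanSpace ℝ (Fin d))).real (unitBall p d))⁻¹ := by
    unfold radius
    rw [← Real.rpow_natCast, ← Real.rpow_mul hpos.le]
    have : -(1 / (d : ℝ)) * (d : ℝ) = -1 := by
      have : (d : ℝ) ≠ 0 := by positivity
      field_simp
    rw [this, Real.rpow_neg_one]
  rw [h1, abs_of_pos (inv_pos.mpr hpos), ENNReal.ofReal_inv_of_pos hpos]
  have h2 : ENNReal.ofReal ((volume : Measure (EuclideanSpace ℝ (Fin d))).real (unitBall p d))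
      = (volume : Measure (EuclideanSpace ℝ (Fin d))) (unitBall p d) :=
    ENNReal.ofReal_toReal (unitBall_vol_ne_top hp d)
  rw [h2]
  exact ENNReal.inv_mul_cancel (unitBall_vol_pos hp d).ne' (unitBall_vol_ne_top hp d)

/-- the nodes visited when all observed values are zero -/
def nodes {d : ℕ} {D : Set (EuclideanSpace ℝ (Fin d))} :
    (n : ℕ) → Alg D n → Fin n → EuclideanSpace ℝ (Fin d)
  | 0, _ => fun i => i.elim0
  | n + 1, a => Fin.cons (a.1 : EuclideanSpace ℝ (Fin d)) (nodes n (a.2 0))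

lemma run_eq {d : ℕ} {D : Set (EuclideanSpace ℝ (Fin d))} (n : ℕ) (a : Alg D n)
    (f : EuclideanSpace ℝ (Fin d) → ℝ) (hf : ∀ i, f (nodes n a i) = 0) :
    run f n a = run (fun _ => 0) n a := by
  induction n with
  | zero => rfl
  | succ n ih =>
    have h0 : f (a.1 : EuclideanSpace ℝ (Fin d)) = 0 := hf 0
    have h1 : run f (n + 1) a = run f n (a.2 0) := by
      show run f n (a.2 (f (a.1 : EuclideanSpace ℝ (Fin d)))) = run f n (a.2 0)
      rw [h0]
    have h2 : run (fun _ => (0 : ℝ)) (n + 1) a = run (fun _ => (0 : ℝ)) n (a.2 0) := rfl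
    rw [h1, h2]
    apply ih
    intro i
    exact hf i.succ

lemma neg_mem {d : ℕ} {D : Set (EuclideanSpace ℝ (Fin d))}
    {f : EuclideanSpace ℝ (Fin d) → ℝ} (hf : f ∈ tildeC2 d D) :
    (fun y => - f y) ∈ tildeC2 d D := by
  obtain ⟨h1, h2, h3, h4⟩ := hf
  refine ⟨h1.neg, ?_, ?_, ?_⟩
  · intro y hy
    simpa using h2 y hy
  · intro y hy z hz
    have := h3 y hy z hz
    rw [abs_sub_comm] at this
    have e : - f y - - f z = f z - f y := by ring
    rw [e]; exact this
  · intro θ hθ y hy z hz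
    have := h4 θ hθ y hy z hz
    rw [abs_sub_comm] at this
    have e1 : fderiv ℝ (fun y => - f y) y = - fderiv ℝ f y := fderiv_fun_neg
    have e2 : fderiv ℝ (fun y => - f y) z = - fderiv ℝ f z := fderiv_fun_neg
    rw [e1, e2]
    have e : (-fderiv ℝ f y) θ - (-fderiv ℝ f z) θ = fderiv ℝ f z θ - fderiv ℝ f y θ := by
      simp only [neg_apply]
      ring
    rw [e]; exact this

/-- a fooling function gives a lower bound for the error -/
lemma err_ge {d : ℕ} {D : Set (EuclideanSpace ℝ (Fin d))} (n : ℕ) (a : Alg D n)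
    {f : EuclideanSpace ℝ (Fin d) → ℝ} (hf : f ∈ tildeC2 d D)
    (hz : ∀ i, f (nodes n a i) = 0) {c : ℝ} (hc : c ≤ ∫ y in D, f y) :
    ENNReal.ofReal c ≤ err D n a := by
  have h1 : ENNReal.ofReal |(∫ y in D, f y) - run f n a| ≤ err D n a :=
    le_iSup₂ (f := fun f (_ : f ∈ tildeC2 d D) =>
      ENNReal.ofReal |(∫ y in D, f y) - run f n a|) f hf
  have h2 : ENNReal.ofReal |(∫ y in D, (- f y)) - run (fun y => - f y) n a| ≤ err D n a :=
    le_iSup₂ (f := fun f (_ : f ∈ tildeC2 d D) =>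
      ENNReal.ofReal |(∫ y in D, f y) - run f n a|) (fun y => - f y) (neg_mem hf)
  have e1 : run f n a = run (fun _ => 0) n a := run_eq n a f hz
  have e2 : run (fun y => - f y) n a = run (fun _ => 0) n a :=
    run_eq n a _ (fun i => by simp [hz i])
  rw [e1] at h1
  rw [e2, integral_neg] at h2
  set r := run (fun _ => (0 : ℝ)) n a
  set I := ∫ y in D, f y
  rcases le_total r 0 with hr | hr
  · refine le_trans (ENNReal.ofReal_le_ofReal ?_) h1
    have : I - r ≤ |I - r| := le_abs_self _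
    linarith
  · refine le_trans (ENNReal.ofReal_le_ofReal ?_) h2
    have : -(-I - r) ≤ |-I - r| := neg_le_abs _
    linarith

/-- lower bound for the minimal errors on arbitrary open sets of volume one -/
lemma minErr_ge {d : ℕ} (hd : 1 ≤ d) {D : Set (EuclideanSpace ℝ (Fin d))} (hD : IsOpen D)
    (hvol : volume D = 1) (n : ℕ) :
    ENNReal.ofReal ((1 / 2592) * ((max n 1 : ℕ) : ℝ) ^ (-(2 : ℝ) / (d : ℝ))) ≤ minErr D n := by
  apply le_iInf
  intro a
  -- nodes, at least one
  obtain ⟨x, hx⟩ : ∃ x : Fin (max n 1) → EuclideanSpace ℝ (Fin d),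
      ∀ i : Fin n, ∃ j, x j = nodes n a i := by
    refine ⟨fun j => if h : j.1 < n then nodes n a ⟨j.1, h⟩ else 0, ?_⟩
    intro i
    refine ⟨⟨i.1, lt_of_lt_of_le i.2 (le_max_left _ _)⟩, ?_⟩
    simp
  obtain ⟨f, hC, h0, h1, hLip, hder, hzero, hint⟩ :=
    Pool.Agent.Helper579.LasryLions.exists_fooling hd D hD hvol (le_max_right n 1) x
  apply err_ge n a (f := f) _ _ hint
  · refine ⟨hC.contDiffOn, ?_, ?_, ?_⟩
    · intro y _
      rw [abs_of_nonneg (h0 y)]
      exact h1 y
    · intro y _ z _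
      exact hLip y z
    · intro θ hθ y _ z _
      exact hder θ hθ y z
  · intro i
    obtain ⟨j, hj⟩ := hx i
    rw [← hj]
    exact hzero j

/-- The curse holds for every family of open sets of volume one. -/
theorem curse_of_volume_one (D : (d : ℕ) → Set (EuclideanSpace ℝ (Fin d)))
    (hD : ∀ d, 1 ≤ d → IsOpen (D d)) (hvol : ∀ d, 1 ≤ d → volume (D d) = 1) : Curse D := by
  refine ⟨1, 1, 1 / 10368, one_pos, one_pos, by norm_num, ?_⟩
  apply Filter.Eventually.frequently
  filter_upwards [Filter.eventually_ge_atTop 1] with d hd ε hε hε0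
  have hdpos : (0 : ℝ) < d := by exact_mod_cast hd
  apply le_iInf₂
  intro n hn
  have h1 := (minErr_ge hd (hD d hd) (hvol d hd) n).trans hn
  have h2 := (ENNReal.ofReal_le_ofReal_iff hε.le).mp h1
  set m : ℕ := max n 1 with hm
  have hmpos : (0 : ℝ) < m := by
    have : 1 ≤ m := le_max_right _ _
    exact_mod_cast this
  have h3 : (m : ℝ) ^ (-(2 : ℝ) / (d : ℝ)) ≤ 1 / 4 := by linarith
  have h4 : (2 : ℝ) ^ d ≤ m := by
    have h5 : ((m : ℝ) ^ (-(2 : ℝ) / (d : ℝ))) ^ ((d : ℝ) / 2) ≤ (1 / 4) ^ ((d : ℝ) / 2) :=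
      Real.rpow_le_rpow (by positivity) h3 (by positivity)
    rw [← Real.rpow_mul hmpos.le] at h5
    have h6 : -(2 : ℝ) / (d : ℝ) * ((d : ℝ) / 2) = -1 := by field_simp
    have h7 : (1 / 4 : ℝ) ^ ((d : ℝ) / 2) = ((2 : ℝ) ^ d)⁻¹ := by
      have : (1/4 : ℝ) = (2 : ℝ) ^ (-2 : ℝ) := by
        rw [Real.rpow_neg (by norm_num)]; norm_num
      rw [this, ← Real.rpow_mul (by norm_num)]
      have : (-2 : ℝ) * ((d : ℝ) / 2) = - (d : ℝ) := by ring
      rw [this, Real.rpow_neg (by norm_num), Real.rpow_natCast]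
    rw [h6, h7, Real.rpow_neg_one] at h5
    exact (inv_le_inv₀ hmpos (by positivity)).mp h5
  have h8 : m = n := by
    rcases Nat.eq_zero_or_pos n with h0 | h0
    · exfalso
      have : m = 1 := by rw [hm, h0]; rfl
      rw [this] at h4
      have : (2 : ℝ) ^ 1 ≤ 2 ^ d := pow_le_pow_right₀ (by norm_num) hd
      norm_num at h4 this
      linarith
    · exact max_eq_left h0
  rw [h8] at h4
  have h9 : ENNReal.ofReal (1 * (1 + 1) ^ d) ≤ ENNReal.ofReal (n : ℝ) := by
    apply ENNReal.ofReal_le_ofReal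
    norm_num
    exact h4
  rwa [ENNReal.ofReal_natCast] at h9

/-- **Main result.** For every `p` with `0 < p < 2` the integration problem for the class
`tildeC2` on the volume-normalised `l_p` balls suffers from the curse of dimensionality. -/
theorem result (p : ℝ) (hp : 0 < p) (_hp2 : p < 2) : Curse (fun d => lpBall p d) :=
  curse_of_volume_one _ (fun d _ => isOpen_lpBall hp d) (fun _ hd => volume_lpBall hp hd)

end Pool.Agent.Results.MP_562679_an.CurseLpBalls
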